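import Pool.Agent.N585.CIS.WC
import Pool.Agent.H609R2.NPClosure

/-!
# CIS RECOGNITION is coNP-complete, even for weakly chordal graphs

The decision problem CIS RECOGNITION has as input a finite simple graph, given by an adjacency
matrix `M : List (List Bool)`; `matGraph M` is the graph.  A graph is CIS when every maximal clique
meets every maximal stable set.  A graph is weakly chordal when neither it nor its complement has an
induced cycle with at least five vertices.

Reduction from the complement of 3SAT.  The vertices are the pairs `(i, a)`, meaning that the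
variable `i` has the value `a`, and the triples `(i, k, b)` such that the value `b` of the variable
`i` does not satisfy the clause `k`, meaning that the clause `k` is falsified and the variable `i`
has the value `b`; adjacency is contradiction.  The equivalence of CIS and unsatisfiability is in
the library (`Y602.CIS`).  New here: the graph is weakly chordal, since every set of at least two
vertices contains two vertices `u`, `v` such that all neighbours of `u` in the set are `v` or
neighbours of `v` (`lab_subsingleton`), which is not so for the vertices of an induced cycle of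
length at least five of the graph or of its complement (`cycle_witness`).
-/

set_option autoImplicit false

namespace Pool.Agent.Results.MP_bb030f_lc.WeaklyChordalCIS

open Pool.Agent.NPC Pool.Agent.H622R2 Pool.Agent.H609R2 Pool.Agent.Y602 Pool.Agent.N585.CIS

/-- The problem is hard for the weakly chordal graphs. -/
theorem hardPr_not_cis : HardPr (fun M : List (List Bool) => WeaklyChordal (matGraph M))
    (fun M : List (List Bool) => ¬ IsCIS (matGraph M)) :=
  hardPr_SAT3b.trans eqRed_poly (fun φ _ => eqRed_weaklyChordal φ)
    (fun _ h => eqRed_cis h.1 h.2.1 h.2.2)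

/-- **CIS RECOGNITION is coNP-complete**: it is in `coNP`, and every language in `coNP` has a
polynomial-time reduction to it which produces only weakly chordal graphs.  So it is coNP-hard, also
when the input is restricted to weakly chordal graphs, and it is in `NP` if and only if
`NP = coNP`. -/
theorem result : InCoNPP (fun M : List (List Bool) => IsCIS (matGraph M)) ∧
    (∀ L : Set (List Bool), InCoNP L → ∃ f : List Bool → List (List Bool),
      PolyTime (fun x => bits (f x)) ∧ (∀ x, WeaklyChordal (matGraph (f x))) ∧
        ∀ x, x ∈ L ↔ IsCIS (matGraph (f x))) ∧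
    CoNPHardP (fun M : List (List Bool) => IsCIS (matGraph M)) ∧
    CoNPHardP (fun M : List (List Bool) => WeaklyChordal (matGraph M) ∧ IsCIS (matGraph M)) ∧
    (InNPP (fun M : List (List Bool) => IsCIS (matGraph M)) ↔
      ∀ L : Set (List Bool), InNP L ↔ InCoNP L) := by
  have h0 : ∀ L : Set (List Bool), InCoNP L → ∃ f : List Bool → List (List Bool),
      PolyTime (fun x => bits (f x)) ∧ (∀ x, WeaklyChordal (matGraph (f x))) ∧
        ∀ x, x ∈ L ↔ IsCIS (matGraph (f x)) := by
    intro L hL
    obtain ⟨f, hf, hw, hc⟩ := hardPr_not_cis _ hL
    refine ⟨f, PC.toPolyTime hf, hw, fun x => ?_⟩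
    have := hc x
    rw [Set.mem_compl_iff] at this
    exact not_iff_not.1 this
  have hq : ∀ Q : List (List Bool) → Prop,
      (∀ M, WeaklyChordal (matGraph M) → (Q M ↔ IsCIS (matGraph M))) → CoNPHardP Q := by
    intro Q hQ L hL
    obtain ⟨f, hf, hw, hc⟩ := h0 L hL
    exact ⟨_, hf, fun x => by rw [bits_mem_lang, hQ _ (hw x)]; exact hc x⟩
  have h : CoNPHardP (fun M : List (List Bool) => IsCIS (matGraph M)) :=
    hq _ (fun _ _ => Iff.rfl)
  refine ⟨inCoNP_cis, h0, h, hq _ (fun _ hM => ⟨fun h => h.2, fun h => ⟨hM, h⟩⟩),
    fun h' => ?_, fun h' => (h' _).2 inCoNP_cis⟩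
  have h1 : ∀ L : Set (List Bool), InCoNP L → InNP L := fun L hL =>
    CoNPHard.collapse609 h h' L hL
  intro L
  refine ⟨fun hL => ?_, h1 L⟩
  have h2 : InCoNP Lᶜ := by
    unfold InCoNP
    rwa [compl_compl]
  exact h1 _ h2

end Pool.Agent.Results.MP_bb030f_lc.WeaklyChordalCIS
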